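import Mathlib

set_option autoImplicit false

namespace Pool.Agent.Results.MP_33c00b_an.WeakSeq

open Filter Topology BoundedContinuousFunction

noncomputable section

abbrev Z := (ℕ × ℕ) →ᵇ ℂ

def v (j t : ℕ) : ℝ := 2 ^ j * if j < t then 1 else (4 ^ t)⁻¹

lemma v_pos (j t : ℕ) : 0 < v j t := by unfold v; split_ifs <;> positivity

lemma v_succ (j t : ℕ) : v (j + 1) t / v j t ≤ 2 := by
  rw [div_le_iff₀ (v_pos _ _), v, v, pow_succ, mul_comm _ (2 : ℝ), mul_assoc]
  gcongr
  split_ifs with a b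
  · rfl
  · omega
  · exact inv_le_one_of_one_le₀ (one_le_pow₀ (by norm_num))
  · rfl

def mk (f : ℕ × ℕ → ℂ) (C : ℝ) (h : ∀ q, ‖f q‖ ≤ C) : Z := ofNormedAddCommGroupDiscrete f C h

lemma nle {f : Z} {C : ℝ} (h : ∀ j t, ‖f (j, t)‖ ≤ C) : ‖f‖ ≤ C :=
  (norm_le ((norm_nonneg _).trans (h 0 0))).2 fun q => h q.1 q.2

lemma bd (f : Z) (q : ℕ × ℕ) : ‖((v (q.1 + 1) q.2 / v q.1 q.2 : ℝ) : ℂ) * f (q.1 + 1, q.2)‖ ≤ 2 * ‖f‖ := by
  rw [norm_mul, Complex.norm_real, Real.norm_of_nonneg (div_pos (v_pos _ _) (v_pos _ _)).le]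
  exact mul_le_mul (v_succ _ _) (f.norm_coe_le_norm _) (norm_nonneg _) (by norm_num)

def S : Z →L[ℂ] Z := LinearMap.mkContinuous
  { toFun := fun f => mk _ _ (bd f)
    map_add' := fun f g => by ext q; exact mul_add _ _ _
    map_smul' := fun c f => by ext q; exact mul_left_comm _ _ _ } 2 fun f => nle fun j t => bd f (j, t)

lemma S_pow (k : ℕ) (f : Z) (j t : ℕ) :
    (S ^ k) f (j, t) = ((v (k + j) t / v j t : ℝ) : ℂ) * f (k + j, t) := by
  induction k generalizing j with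
  | zero => simp [(v_pos j t).ne']
  | succ k ih =>
    rw [pow_succ', ContinuousLinearMap.mul_apply]
    change ((v (j + 1) t / v j t : ℝ) : ℂ) * (S ^ k) f (j + 1, t) = _
    rw [ih, ← mul_assoc, ← Complex.ofReal_mul, show k + (j + 1) = k + 1 + j by ring]
    have := (v_pos (j + 1) t).ne'
    congr 2; field_simp

def Fin' (N : ℕ) (f : Z) : Prop := ∀ j t, (N ≤ j → f (j, t) = 0) ∧ (N ≤ t → f (j, t) = f (j, N))

lemma Fin'.mono {N M : ℕ} {f : Z} (h : Fin' N f) (hM : N ≤ M) : Fin' M f := fun j t =>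
  ⟨fun a => (h j t).1 (hM.trans a), fun a => ((h j t).2 (hM.trans a)).trans ((h j M).2 hM).symm⟩

def D : Submodule ℂ Z where
  carrier := {f | ∃ N, Fin' N f}
  zero_mem' := ⟨0, fun _ _ => ⟨fun _ => rfl, fun _ => rfl⟩⟩
  add_mem' := by
    rintro f g ⟨N, h⟩ ⟨M, h'⟩
    have a := h.mono (le_max_left N M)
    have b := h'.mono (le_max_right N M)
    exact ⟨max N M, fun j t => ⟨fun x => by simp [(a j t).1 x, (b j t).1 x],
      fun x => by simp [(a j t).2 x, (b j t).2 x]⟩⟩
  smul_mem' := by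
    rintro c f ⟨N, a⟩
    exact ⟨N, fun j t => ⟨fun x => by simp [(a j t).1 x], fun x => by simp [(a j t).2 x]⟩⟩

lemma S_D (f : Z) (hf : f ∈ D) : S f ∈ D := by
  obtain ⟨N, h⟩ := hf
  refine ⟨N + 1, fun j t => ?_⟩
  have e := S_pow 1 f j
  rw [pow_one] at e
  refine ⟨fun x => by rw [e, (h _ _).1 (by omega), mul_zero], fun x => ?_⟩
  rw [e, e]
  by_cases c : N ≤ 1 + j
  · rw [(h _ _).1 c, (h _ _).1 c, mul_zero, mul_zero]
  · rw [(h _ t).2 (by omega), (h _ (N + 1)).2 (by omega)]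
    simp only [v, if_pos (by omega : 1 + j < t), if_pos (by omega : j < t),
      if_pos (by omega : 1 + j < N + 1), if_pos (by omega : j < N + 1)]

lemma D_sep : TopologicalSpace.IsSeparable (D : Set Z) := by
  let E : ∀ N : ℕ, (Fin (N + 1) × Fin (N + 1) → ℂ) → Z := fun N c =>
    mk (fun q => c (⟨min q.1 N, by omega⟩, ⟨min q.2 N, by omega⟩)) _ fun _ => norm_le_pi_norm c _
  have : ∀ N, Continuous (E N) := fun N => (LipschitzWith.of_dist_le_mul (K := 1) fun a b => by
    rw [NNReal.coe_one, one_mul, dist_le dist_nonneg]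
    exact fun q => dist_le_pi_dist a b _).continuous
  refine (TopologicalSpace.isSeparable_iUnion.2 fun N => TopologicalSpace.isSeparable_range (this N)).mono ?_
  rintro f ⟨N, h⟩
  refine Set.mem_iUnion.2 ⟨N, fun q => f (q.1, q.2), ?_⟩
  ext ⟨j, t⟩
  change f (min j N, min t N) = _
  rcases le_total N j with a | a
  · rw [min_eq_right a, (h _ _).1 le_rfl, (h _ _).1 a]
  · rw [min_eq_left a]
    rcases le_total N t with b | b
    · rw [min_eq_right b, (h j t).2 b]
    · rw [min_eq_left b]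

def ind (a b : ℕ) : Z := mk (fun q => if a ≤ q.2 ∧ q.2 < b then 1 else 0) 1 fun q => by
  split_ifs <;> simp

lemma ind_apply (a b j t : ℕ) : ind a b (j, t) = if a ≤ t ∧ t < b then 1 else 0 := rfl

lemma ind_le (a b : ℕ) : ‖ind a b‖ ≤ 1 := nle fun j t => by
  rw [ind_apply]; split_ifs <;> simp

lemma block (g : Z) (hg : g ∈ D) (s : ℕ) (ε : ℝ) (hε : 0 < ε) : ∃ n m, ∃ b ∈ D, s ≤ n ∧ n < m ∧
    (∀ k, m ≤ k → (S ^ k) b = 0) ∧ (∀ k ≤ s, ‖(S ^ k) b‖ ≤ ε) ∧ (S ^ n) b = g - ind s m * g := by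
  obtain ⟨N, h⟩ := hg
  obtain ⟨n, hn, h1⟩ := (((tendsto_pow_atTop_atTop_of_one_lt (one_lt_two (α := ℝ))).eventually_ge_atTop
    (2 ^ s * 4 ^ s * ‖g‖ / ε)).and (eventually_ge_atTop s)).exists
  rw [div_le_iff₀ hε] at hn
  let F : ℕ × ℕ → ℂ := fun q => if n ≤ q.1 ∧ (q.2 < s ∨ n + N + 1 ≤ q.2) then
    ((v (q.1 - n) q.2 / v q.1 q.2 : ℝ) : ℂ) * g (q.1 - n, q.2) else 0
  have key : ∀ k ≤ s, ∀ j t, ‖((v (k + j) t / v j t : ℝ) : ℂ) * F (k + j, t)‖ ≤ ε := by
    intro k hk j t
    simp only [F]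
    split_ifs with c
    swap
    · simp [hε.le]
    by_cases d : N ≤ k + j - n
    · simp [(h _ _).1 d, hε.le]
    obtain ⟨i, hi⟩ : ∃ i, k + j = n + i := ⟨k + j - n, by omega⟩
    have p1 := v_pos (n + i) t
    have p2 := v_pos j t
    have p3 := v_pos i t
    rw [hi, Nat.add_sub_cancel_left, ← mul_assoc, ← Complex.ofReal_mul, norm_mul, Complex.norm_real,
      Real.norm_of_nonneg (by positivity), div_mul_div_comm, mul_comm (v j t),
      mul_div_mul_left _ _ p1.ne', div_mul_eq_mul_div, div_le_iff₀ p2]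
    have a1 : v i t ≤ 2 ^ i := by
      unfold v
      refine mul_le_of_le_one_right (by positivity) ?_
      split_ifs
      exacts [le_rfl, inv_le_one_of_one_le₀ (one_le_pow₀ (by norm_num))]
    have a2 : 2 ^ j * (4 ^ s)⁻¹ ≤ v j t := by
      unfold v
      gcongr
      split_ifs with e
      · exact inv_le_one_of_one_le₀ (one_le_pow₀ (by norm_num))
      · exact inv_anti₀ (by positivity) (pow_le_pow_right₀ (by norm_num) (by omega))
    have a3 : (2 : ℝ) ^ n * 2 ^ i ≤ 2 ^ s * 2 ^ j := by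
      rw [← pow_add, ← pow_add]; exact pow_le_pow_right₀ one_le_two (by omega)
    refine (mul_le_mul a1 (g.norm_coe_le_norm _) (norm_nonneg _) (by positivity)).trans
      (le_trans ?_ (mul_le_mul_of_nonneg_left a2 hε.le))
    rw [← mul_assoc, le_mul_inv_iff₀ (by positivity)]
    refine le_of_mul_le_mul_left ?_ (by positivity : (0 : ℝ) < 2 ^ s)
    nlinarith [mul_le_mul_of_nonneg_left hn (by positivity : (0 : ℝ) ≤ 2 ^ i),
      mul_le_mul_of_nonneg_left a3 hε.le]
  have hF : ∀ q, ‖F q‖ ≤ ε := fun q => by simpa [(v_pos q.1 q.2).ne'] using key 0 (Nat.zero_le _) q.1 q.2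
  have z : ∀ j t, n + N + 1 ≤ j → F (j, t) = 0 := fun j t x => by
    simp [F, (h (j - n) t).1 (by omega)]
  refine ⟨n, n + N + 1, mk F ε hF, ⟨n + N + 1, fun j t => ⟨z j t, fun x => ?_⟩⟩, h1, by omega,
    fun k hk => ?_, fun k hk => nle fun j t => by rw [S_pow]; exact key k hk j t, ?_⟩
  · change F _ = F _
    by_cases c : n + N + 1 ≤ j
    · rw [z _ _ c, z _ _ c]
    · simp only [F, x, le_refl, or_true, v, if_pos (by omega : j < t), if_pos (by omega : j - n < t),
        if_pos (by omega : j < n + N + 1), if_pos (by omega : j - n < n + N + 1),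
        (h (j - n) t).2 (by omega), (h (j - n) (n + N + 1)).2 (by omega)]
  · ext ⟨j, t⟩
    rw [S_pow]
    exact mul_eq_zero_of_right _ (z _ _ (by omega))
  · ext ⟨j, t⟩
    rw [S_pow]
    change _ * F _ = g (j, t) - ind s (n + N + 1) (j, t) * g (j, t)
    simp only [F, ind_apply, Nat.add_sub_cancel_left]
    have p1 := (v_pos (n + j) t).ne'
    have p2 := (v_pos j t).ne'
    split_ifs with a b b
    · omega
    · rw [← mul_assoc, ← Complex.ofReal_mul, div_mul_div_cancel₀' p1, div_self p2]; simp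
    · simp
    · omega

lemma wnull (ψ : Z →L[ℂ] ℂ) (g : Z) {s : ℕ → ℕ} (hs : Monotone s) :
    Tendsto (fun p => ψ (ind (s p) (s (p + 1)) * g)) atTop (𝓝 0) := by
  choose c hc using fun p => Complex.exists_norm_eq_mul_self (ψ (ind (s p) (s (p + 1)) * g))
  rw [tendsto_zero_iff_norm_tendsto_zero]
  refine (summable_of_sum_range_le (c := ‖ψ‖ * ‖g‖) (fun _ => norm_nonneg _) fun P => ?_).tendsto_atTop_zero
  have a : ‖∑ p ∈ Finset.range P, c p • (ind (s p) (s (p + 1)) * g)‖ ≤ ‖g‖ := nle fun j t => by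
    simp only [BoundedContinuousFunction.sum_apply, BoundedContinuousFunction.smul_apply, mul_apply,
      ind_apply]
    by_cases e : ∃ p ∈ Finset.range P, s p ≤ t ∧ t < s (p + 1)
    · obtain ⟨p, hp, e⟩ := e
      rw [Finset.sum_eq_single_of_mem p hp]
      · simpa [e, (hc p).1] using g.norm_coe_le_norm (j, t)
      · intro q _ hq
        rw [if_neg, zero_mul, smul_zero]
        rcases lt_or_gt_of_ne hq with x | x <;> have := hs (Nat.add_one_le_of_lt x) <;> omega
    · push Not at e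
      rw [Finset.sum_eq_zero fun p hp => by rw [if_neg (by have := e p hp; omega), zero_mul, smul_zero]]
      simp
  have b := (ψ.le_opNorm _).trans (mul_le_mul_of_nonneg_left a (norm_nonneg _))
  simp only [map_sum, map_smul, smul_eq_mul, ← (hc _).2, ← Complex.ofReal_sum, Complex.norm_real] at b
  exact (le_abs_self _).trans b

abbrev B : Submodule ℂ Z := D.topologicalClosure

def T : B →L[ℂ] B := (S.comp B.subtypeL).codRestrict B fun f =>
  map_mem_closure (s := (D : Set Z)) (t := (D : Set Z)) S.continuous f.2 fun g hg => S_D g hg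

lemma T_pow (n : ℕ) (f : B) : ((T ^ n) f : Z) = (S ^ n) f := by
  induction n with
  | zero => rfl
  | succ n ih => rw [pow_succ', pow_succ', ContinuousLinearMap.mul_apply,
      ContinuousLinearMap.mul_apply, ← ih]; rfl

lemma vec : ∃ x ∈ B, ∀ y ∈ B, ∃ n : ℕ → ℕ, Tendsto n atTop atTop ∧
    ∀ ψ : Z →L[ℂ] ℂ, Tendsto (fun k => ψ ((S ^ n k) x)) atTop (𝓝 (ψ y)) := by
  haveI := D_sep.separableSpace
  haveI : Nonempty (D : Set Z) := ⟨⟨0, D.zero_mem⟩⟩
  obtain ⟨d, hd⟩ := TopologicalSpace.exists_dense_seq (D : Set Z)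
  choose n m b h0 h1 h2 h3 h4 h5 using fun p s : ℕ =>
    block (d p.unpair.1) (d p.unpair.1).2 s ((1 / 2) ^ p) (by positivity)
  let s : ℕ → ℕ := fun p => Nat.rec 0 (fun p a => m p a) p
  have hs : StrictMono s := strictMono_nat_of_lt_succ fun p => (h1 p _).trans_lt (h2 p _)
  have sg := summable_geometric_two
  have sb : Summable fun p => b p (s p) :=
    Summable.of_norm_bounded sg fun p => by simpa using h4 p (s p) 0 (Nat.zero_le _)
  have main : ∀ p, ‖(S ^ n p (s p)) (∑' q, b q (s q)) -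
      ((d p.unpair.1).1 - ind (s p) (s (p + 1)) * (d p.unpair.1).1)‖ ≤ (1 / 2) ^ p := fun p => by
    rw [ContinuousLinearMap.map_tsum _ sb, ← ((S ^ n p (s p)).summable sb).sum_add_tsum_nat_add (p + 1),
      Finset.sum_range_succ, h5, Finset.sum_eq_zero fun q hq => h3 q _ _
        ((hs.monotone (Nat.add_one_le_of_lt (Finset.mem_range.1 hq))).trans (h1 p _)), zero_add,
      add_sub_cancel_left]
    refine (tsum_of_norm_bounded (g := fun i => (1 / 2) ^ (p + 1) * (1 / 2) ^ i)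
      (hasSum_geometric_two.mul_left _) fun i => ?_).trans (le_of_eq (by ring))
    rw [← pow_add, add_comm (p + 1)]
    exact h4 _ _ _ ((h2 p _).le.trans (hs.monotone (Nat.le_add_left (p + 1) i)))
  refine ⟨∑' q, b q (s q), (Submodule.isClosed_topologicalClosure _).mem_of_tendsto
    sb.hasSum.tendsto_sum_nat (Eventually.of_forall fun _ => D.le_topologicalClosure
      (D.sum_mem fun _ _ => h0 _ _)), fun y hy => ?_⟩
  have : y ∈ closure (Set.range fun a => (d a).1) := by
    refine closure_minimal (fun z hz => ?_) isClosed_closure hy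
    exact map_mem_closure continuous_subtype_val (hd ⟨z, hz⟩) (by rintro _ ⟨a, rfl⟩; exact ⟨a, rfl⟩)
  obtain ⟨u, hu, hy⟩ := mem_closure_iff_seq_limit.1 this
  choose a ha using hu
  have pt : Tendsto (fun k => Nat.pair (a k) k) atTop atTop :=
    tendsto_atTop_mono (fun k => Nat.right_le_pair _ _) tendsto_id
  refine ⟨fun k => n (Nat.pair (a k) k) (s (Nat.pair (a k) k)), tendsto_atTop_mono (fun k => h1 _ _)
    (hs.tendsto_atTop.comp pt), fun ψ => ?_⟩
  have t1 := tendsto_zero_iff_norm_tendsto_zero.2 (squeeze_zero (fun _ => norm_nonneg _)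
    (fun k => main (Nat.pair (a k) k))
    ((tendsto_pow_atTop_nhds_zero_of_lt_one (by norm_num) (by norm_num)).comp pt))
  have t2 : Tendsto (fun k => ind (s (Nat.pair (a k) k)) (s (Nat.pair (a k) k + 1)) * (u k - y))
      atTop (𝓝 0) := by
    exact squeeze_zero_norm (fun k => (norm_mul_le _ _).trans (mul_le_of_le_one_left (norm_nonneg _)
      (ind_le _ _))) (tendsto_iff_norm_sub_tendsto_zero.1 hy)
  have := ((ψ.continuous.tendsto _).comp ((t1.add hy).sub t2)).sub ((wnull ψ y hs.monotone).comp pt)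
  simp only [zero_add, sub_zero] at this
  refine this.congr fun k => ?_
  simp only [Function.comp, Nat.unpair_pair, ha, ← map_sub]
  congr 1; ring

/-- A weakly 1-sequentially hypercyclic operator on a complex Banach space that is not
hypercyclic. -/
theorem result : ∃ (B : Type) (_ : NormedAddCommGroup B) (_ : NormedSpace ℂ B) (_ : CompleteSpace B)
    (T : B →L[ℂ] B), (∃ x, ∀ y, ∃ n : ℕ → ℕ, Tendsto n atTop atTop ∧ ∀ φ : B →L[ℂ] ℂ,
      Tendsto (fun k => φ ((T ^ n k) x)) atTop (𝓝 (φ y))) ∧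
    ¬ ∃ x, Dense (Set.range fun n : ℕ => (T ^ n) x) := by
  refine ⟨B, inferInstance, inferInstance, (Submodule.isClosed_topologicalClosure _).completeSpace_coe,
    T, ?_, ?_⟩
  · obtain ⟨x, hx, h⟩ := vec
    refine ⟨⟨x, hx⟩, fun y => ?_⟩
    obtain ⟨n, h1, h2⟩ := h y y.2
    refine ⟨n, h1, fun φ => ?_⟩
    obtain ⟨ψ, h3, -⟩ := exists_extension_norm_eq B φ
    simpa only [← h3, T_pow] using h2 ψ
  · rintro ⟨x, hx⟩
    let g : Z := mk (fun q => if q.1 = 0 then ((‖x.1‖ + 1 : ℝ) : ℂ) else 0) ‖((‖x.1‖ + 1 : ℝ) : ℂ)‖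
      fun q => by split_ifs <;> simp
    have hg : g ∈ D := ⟨1, fun j t => ⟨fun h => if_neg (by omega), fun _ => rfl⟩⟩
    obtain ⟨_, ⟨n, rfl⟩, h⟩ := hx.exists_dist_lt ⟨g, D.le_topologicalClosure hg⟩ one_pos
    have a := (dist_coe_le_dist (f := g) (g := ((T ^ n) x : Z)) (0, n)).trans_lt h
    have b : ‖((T ^ n) x : Z) (0, n)‖ ≤ ‖x.1‖ := by
      rw [T_pow, S_pow, norm_mul, Complex.norm_real,
        Real.norm_of_nonneg (div_pos (v_pos _ _) (v_pos _ _)).le]
      refine (mul_le_of_le_one_left (norm_nonneg _) ?_).trans (x.1.norm_coe_le_norm _)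
      rw [div_le_one (v_pos _ _)]
      cases n with
      | zero => rfl
      | succ n =>
        simp only [v, add_zero, lt_irrefl, if_false, pow_zero, Nat.succ_pos, if_true, mul_one]
        rw [mul_inv_le_iff₀ (by positivity), one_mul]
        gcongr; norm_num
    have c : ‖g (0, n)‖ = ‖x.1‖ + 1 :=
      (Complex.norm_real _).trans (Real.norm_of_nonneg (by positivity))
    rw [dist_eq_norm] at a
    linarith [norm_sub_norm_le (g (0, n)) (((T ^ n) x : Z) (0, n))]

end

end Pool.Agent.Results.MP_33c00b_an.WeakSeq
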